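import Pool.Agent.Helper14.CV.StA

/-!
# Project CV: module P12 (the potential is homogeneous and a symbol)
-/

set_option autoImplicit false

open UpperHalfPlane CongruenceSubgroup
open scoped MatrixGroups

namespace Pool.Agent.Helper87.CV

open Pool.Agent.Helper14.CV

private theorem sq_pos' {p q : ℤ} (h : p ≠ 0 ∨ q ≠ 0) : 0 < p * p - (-q) * q := by
  rcases h with h | h
  · have : 0 < p * p := mul_self_pos.2 h
    nlinarith [mul_self_nonneg q]
  · have : 0 < q * q := mul_self_pos.2 h
    nlinarith [mul_self_nonneg p]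

private theorem pot0 {N : ℕ} {f : CuspForm (G0 N) 2} {G : ℤ → ℤ → ℂ} (hG : IsPot f G) (a b c d : ℤ)
    (h : 0 < a * d - b * c) :
    Filter.Tendsto (fun y : ℝ => Fp f ((a * (y * Complex.I) + b) / (c * (y * Complex.I) + d)))
      Filter.atTop (nhds (G a c)) := by
  have := hG a b c d h 0
  simpa only [Complex.ofReal_zero, zero_add] using this

private theorem hpos {N : ℕ} {f : CuspForm (G0 N) 2} {G : ℤ → ℤ → ℂ} (hG : IsPot f G) {k p q : ℤ}
    (hk : 0 < k) (h : p ≠ 0 ∨ q ≠ 0) : G (k * p) (k * q) = G p q := by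
  have h1 := sq_pos' h
  have h2 : 0 < (k * p) * p - (-q) * (k * q) := by
    have : (k * p) * p - (-q) * (k * q) = k * (p * p - (-q) * q) := by ring
    rw [this]
    exact mul_pos hk h1
  have t1 := pot0 hG (k * p) (-q) (k * q) p h2
  have t2 := pot0 hG p (-q) q p h1
  have hk' : (0 : ℝ) < k := by exact_mod_cast hk
  have t3 := t2.comp (Filter.tendsto_id.const_mul_atTop hk')
  refine tendsto_nhds_unique t1 (t3.congr fun y => ?_)
  simp only [Function.comp_apply, id_eq]
  congr 1
  push_cast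
  congr 1 <;> ring

private theorem hneg {N : ℕ} {f : CuspForm (G0 N) 2} {G : ℤ → ℤ → ℂ} (hG : IsPot f G) {p q : ℤ}
    (h : p ≠ 0 ∨ q ≠ 0) : G (-p) (-q) = G p q := by
  have h1 := sq_pos' h
  have h2 : 0 < (-p) * (-p) - q * (-q) := by
    have : (-p) * (-p) - q * (-q) = p * p - (-q) * q := by ring
    rw [this]
    exact h1
  have t1 := pot0 hG (-p) q (-q) (-p) h2
  have t2 := pot0 hG p (-q) q p h1
  refine tendsto_nhds_unique t1 (t2.congr fun y => ?_)
  congr 1
  push_cast
  rw [← neg_div_neg_eq]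
  congr 1 <;> ring

private theorem frac (a b c d u v : ℂ) (hv : v ≠ 0) :
    (a * (u / v) + b) / (c * (u / v) + d) = (a * u + b * v) / (c * u + d * v) := by
  have e : ∀ a b : ℂ, a * u + b * v = (a * (u / v) + b) * v := by
    intro a b
    rw [add_mul, mul_assoc, div_mul_cancel₀ _ hv]
  rw [e a b, e c d, mul_div_mul_right _ _ hv]

theorem hP1 : StP1 := by
  intro N _ f G hG k p q hk h
  rcases lt_or_gt_of_ne hk with h1 | h1
  · have h2 : 0 < -k := by omega
    have h3 : (-k) * p ≠ 0 ∨ (-k) * q ≠ 0 := by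
      rcases h with h | h
      · exact Or.inl (mul_ne_zero h2.ne' h)
      · exact Or.inr (mul_ne_zero h2.ne' h)
    have h4 := hneg hG h3
    rw [hpos hG h2 h] at h4
    rw [← h4]
    congr 1 <;> ring
  · exact hpos hG h1 h

theorem hP2 (h3 : StA3) (hP1 : StP1) : StP2 := by
  intro n f G hG
  have hN : NeZero (2 ^ n) := ⟨pow_ne_zero n two_ne_zero⟩
  refine ⟨hP1 (2 ^ n) hN f G hG, ?_⟩
  intro a b c d hdet _ hc
  obtain ⟨k, hk⟩ := h3 (2 ^ n) hN f a b c d hdet (by push_cast; exact hc)
  refine ⟨k, ?_⟩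
  intro p q h
  have h1 := sq_pos' h
  have h2 : 0 < (a * p + b * q) * (-(c * q) + d * p) - (-(a * q) + b * p) * (c * p + d * q) := by
    have : (a * p + b * q) * (-(c * q) + d * p) - (-(a * q) + b * p) * (c * p + d * q) =
        (a * d - b * c) * (p * p - (-q) * q) := by ring
    rw [this, hdet, one_mul]
    exact h1
  have t1 := pot0 hG (a * p + b * q) (-(a * q) + b * p) (c * p + d * q) (-(c * q) + d * p) h2
  have t2 := (pot0 hG p (-q) q p h1).add_const k
  show G (a * p + b * q) (c * p + d * q) = G p q + k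
  refine tendsto_nhds_unique t1 (t2.congr' ?_)
  filter_upwards [Filter.eventually_gt_atTop (0 : ℝ)] with y hy
  have hden : (q : ℂ) * (y * Complex.I) + p ≠ 0 := by
    intro h0
    have hr := congrArg Complex.re h0
    have hi := congrArg Complex.im h0
    simp at hr hi
    rcases h with h | h
    · exact h (by exact_mod_cast hr)
    · rcases hi with hi | hi
      · exact h (by exact_mod_cast hi)
      · exact hy.ne' hi
  have him : 0 < (((p : ℂ) * (y * Complex.I) + ((-q : ℤ) : ℂ)) / ((q : ℂ) * (y * Complex.I) + p)).im := by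
    rw [Complex.div_im]
    have hn : 0 < Complex.normSq ((q : ℂ) * (y * Complex.I) + p) := Complex.normSq_pos.2 hden
    have e1 : ((p : ℂ) * (y * Complex.I) + ((-q : ℤ) : ℂ)).im = p * y := by simp
    have e2 : ((p : ℂ) * (y * Complex.I) + ((-q : ℤ) : ℂ)).re = -q := by simp
    have e3 : ((q : ℂ) * (y * Complex.I) + p).im = q * y := by simp
    have e4 : ((q : ℂ) * (y * Complex.I) + p).re = p := by simp
    rw [e1, e2, e3, e4, ← sub_div]
    refine div_pos ?_ hn
    have h1' : (0 : ℝ) < p * p - (-q) * q := by exact_mod_cast h1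
    nlinarith
  have h5 := hk _ him
  rw [← h5]
  congr 1
  push_cast
  rw [frac _ _ _ _ _ _ hden]
  congr 1 <;> ring

end Pool.Agent.Helper87.CV
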